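import Mathlib

set_option autoImplicit false

namespace Pool.Agent.Results.MP_f878ff_nt.FiniteRep

open Polynomial

/-- The complex number `z` is a Galois conjugate (over `ℚ`) of the real number `β`: a root of
the minimal polynomial of `β`. -/
def IsConjugate (β : ℝ) (z : ℂ) : Prop := aeval z (minpoly ℚ β) = 0

/-- `β` is a real cubic Pisot unit: a real algebraic integer `β > 1` of degree `3` whose inverse
is also an algebraic integer and whose other conjugates all have modulus `< 1`. -/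
structure IsCubicPisotUnit (β : ℝ) : Prop where
  one_lt : 1 < β
  integral : IsIntegral ℤ β
  inv_integral : IsIntegral ℤ β⁻¹
  cubic : (minpoly ℚ β).natDegree = 3
  conj_lt_one : ∀ z : ℂ, IsConjugate β z → z ≠ β → ‖z‖ < 1

/-- `x` has a finite `β`-representation over the alphabet `{0, …, m}`:
`x = ∑_{j=1}^k a_j β^{-j}` for some `k ≥ 0` and digits `a_j ∈ {0, …, m}`. -/
def HasFiniteRep (β : ℝ) (m : ℕ) (x : ℝ) : Prop :=
  ∃ (k : ℕ) (a : ℕ → ℕ), (∀ j ∈ Finset.Icc 1 k, a j ≤ m) ∧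
    x = ∑ j ∈ Finset.Icc 1 k, (a j : ℝ) / β ^ j

/-! ### Bounding coefficients by values at the conjugates -/

lemma coeff_bound (s : Finset ℂ) : ∃ K : ℝ, 0 ≤ K ∧ ∀ f : ℂ[X], f.degree < s.card → ∀ B : ℝ,
    (∀ θ ∈ s, ‖f.eval θ‖ ≤ B) → ∀ i, ‖f.coeff i‖ ≤ K * B := by
  classical
  refine ⟨∑ θ ∈ s, ∑ i ∈ (Lagrange.basis s id θ).support, ‖(Lagrange.basis s id θ).coeff i‖,
    Finset.sum_nonneg (fun _ _ => Finset.sum_nonneg (fun _ _ => norm_nonneg _)), ?_⟩
  intro f hf B hB i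
  have h1 := Lagrange.eq_interpolate (s := s) (v := id) (f := f) (Set.injOn_id _) hf
  rw [h1, Lagrange.interpolate_apply, finsetSum_coeff]
  refine (norm_sum_le _ _).trans ?_
  rw [Finset.sum_mul]
  apply Finset.sum_le_sum
  intro θ hθ
  rw [coeff_C_mul, norm_mul, mul_comm]
  apply mul_le_mul _ (hB θ hθ) (norm_nonneg _)
    (Finset.sum_nonneg (fun _ _ => norm_nonneg _))
  by_cases hi : i ∈ (Lagrange.basis s id θ).support
  · exact Finset.single_le_sum (f := fun i => ‖(Lagrange.basis s id θ).coeff i‖)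
      (fun _ _ => norm_nonneg _) hi
  · rw [notMem_support_iff] at hi
    rw [hi, norm_zero]
    exact Finset.sum_nonneg (fun _ _ => norm_nonneg _)

/-! ### A power with nonpositive real part -/

lemma exists_pow_re_nonpos (θ : ℂ) (h : ¬ (θ.im = 0 ∧ 0 ≤ θ.re)) :
    ∃ n : ℕ, 1 ≤ n ∧ (θ ^ n).re ≤ 0 := by
  by_contra hcon
  push Not at hcon
  have hre : ∀ k : ℕ, 0 < (θ ^ (2 ^ k)).re := fun k => hcon _ Nat.one_le_two_pow
  have hstep : ∀ k : ℕ, (θ ^ (2 ^ (k + 1))).re = (θ ^ (2 ^ k)).re ^ 2 - (θ ^ (2 ^ k)).im ^ 2 ∧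
      (θ ^ (2 ^ (k + 1))).im = 2 * (θ ^ (2 ^ k)).re * (θ ^ (2 ^ k)).im := by
    intro k
    have : θ ^ (2 ^ (k + 1)) = θ ^ (2 ^ k) * θ ^ (2 ^ k) := by
      rw [← pow_add]; congr 1; ring
    rw [this, Complex.mul_re, Complex.mul_im]
    constructor <;> ring
  have hgrow : ∀ k : ℕ, 2 ^ k * |θ.im| * (θ ^ (2 ^ k)).re ≤ |(θ ^ (2 ^ k)).im| * θ.re := by
    intro k
    induction k with
    | zero => simp
    | succ k ih =>
      obtain ⟨h1, h2⟩ := hstep k
      have h3 : |(θ ^ (2 ^ (k + 1))).im| = 2 * (θ ^ (2 ^ k)).re * |(θ ^ (2 ^ k)).im| := by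
        rw [h2, abs_mul, abs_mul, abs_of_pos (hre k)]; norm_num
      have h4 : (θ ^ (2 ^ (k + 1))).re ≤ (θ ^ (2 ^ k)).re ^ 2 := by
        rw [h1]; nlinarith [sq_nonneg (θ ^ (2 ^ k)).im]
      rw [h3]
      have h5 : 0 ≤ (2 : ℝ) ^ (k + 1) * |θ.im| := by positivity
      calc (2 : ℝ) ^ (k + 1) * |θ.im| * (θ ^ (2 ^ (k + 1))).re
          ≤ (2 : ℝ) ^ (k + 1) * |θ.im| * (θ ^ (2 ^ k)).re ^ 2 := mul_le_mul_of_nonneg_left h4 h5
        _ = 2 * (θ ^ (2 ^ k)).re * (2 ^ k * |θ.im| * (θ ^ (2 ^ k)).re) := by ring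
        _ ≤ 2 * (θ ^ (2 ^ k)).re * (|(θ ^ (2 ^ k)).im| * θ.re) := by
            apply mul_le_mul_of_nonneg_left ih
            have := hre k; positivity
        _ = 2 * (θ ^ (2 ^ k)).re * |(θ ^ (2 ^ k)).im| * θ.re := by ring
  have hre0 : 0 < θ.re := by simpa using hre 0
  have hbound : ∀ k : ℕ, 2 ^ k * |θ.im| ≤ θ.re := by
    intro k
    have h1 := hgrow k
    have h2 := hre k
    have h3 := hre (k + 1)
    rw [(hstep k).1] at h3
    have h4 : |(θ ^ (2 ^ k)).im| ≤ (θ ^ (2 ^ k)).re := by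
      apply abs_le_of_sq_le_sq _ h2.le
      linarith
    have h5 : 2 ^ k * |θ.im| * (θ ^ (2 ^ k)).re ≤ θ.re * (θ ^ (2 ^ k)).re := by
      calc _ ≤ _ := h1
        _ ≤ (θ ^ (2 ^ k)).re * θ.re := mul_le_mul_of_nonneg_right h4 hre0.le
        _ = _ := by ring
    exact le_of_mul_le_mul_right h5 h2
  have him : θ.im = 0 := by
    by_contra hne
    have hpos : 0 < |θ.im| := abs_pos.mpr hne
    obtain ⟨k, hk⟩ := pow_unbounded_of_one_lt (θ.re / |θ.im|) (by norm_num : (1 : ℝ) < 2)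
    have := hbound k
    rw [div_lt_iff₀ hpos] at hk
    linarith
  exact h ⟨him, hre0.le⟩

/-! ### A positive polynomial vanishing at the conjugates -/

lemma mul_coeff_nonneg (p q : ℝ[X]) (hp : ∀ i, 0 ≤ p.coeff i) (hq : ∀ i, 0 ≤ q.coeff i) :
    ∀ i, 0 ≤ (p * q).coeff i := by
  intro i
  rw [coeff_mul]
  exact Finset.sum_nonneg (fun _ _ => mul_nonneg (hp _) (hq _))

lemma pos_poly_one (θ : ℂ) (h0 : θ ≠ 0) (n : ℕ) (hn : 1 ≤ n) (hre : (θ ^ n).re ≤ 0) :
    ∃ p : ℝ[X], (∀ i, 0 ≤ p.coeff i) ∧ 0 < p.coeff 0 ∧ aeval θ p = 0 := by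
  obtain ⟨w, hw⟩ : ∃ w, w = θ ^ n := ⟨_, rfl⟩
  have hw0 : w ≠ 0 := by rw [hw]; exact pow_ne_zero _ h0
  rw [← hw] at hre
  refine ⟨X ^ (2 * n) + C (-(2 * w.re)) * X ^ n + C (Complex.normSq w), ?_, ?_, ?_⟩
  · intro i
    simp only [coeff_add, coeff_C_mul, coeff_X_pow, coeff_C]
    have h1 : 0 ≤ Complex.normSq w := Complex.normSq_nonneg _
    split_ifs <;> nlinarith
  · simp only [coeff_add, coeff_C_mul, coeff_X_pow, coeff_C]
    have h1 : 0 < Complex.normSq w := Complex.normSq_pos.mpr hw0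
    rw [if_neg (by omega), if_neg (by omega)]
    simpa using hw0
  · simp only [map_add, map_mul, map_pow, aeval_X, aeval_C]
    have h1 : θ ^ (2 * n) = θ ^ n * θ ^ n := by rw [← pow_add]; congr 1; ring
    rw [h1, ← hw]
    apply Complex.ext
    · simp only [Complex.add_re, Complex.mul_re, Complex.coe_algebraMap, Complex.ofReal_re,
        Complex.ofReal_im, Complex.zero_re, Complex.normSq_apply]
      ring
    · simp only [Complex.add_im, Complex.mul_im, Complex.coe_algebraMap, Complex.ofReal_re,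
        Complex.ofReal_im, Complex.zero_im]
      ring

lemma pos_poly_finset (R : Finset ℂ) (hR : ∀ θ ∈ R, θ ≠ 0 ∧ ∃ n : ℕ, 1 ≤ n ∧ (θ ^ n).re ≤ 0) :
    ∃ p : ℝ[X], (∀ i, 0 ≤ p.coeff i) ∧ 0 < p.coeff 0 ∧ ∀ θ ∈ R, aeval θ p = 0 := by
  classical
  induction R using Finset.induction_on with
  | empty =>
    refine ⟨1, ?_, by simp, by simp⟩
    intro i
    rw [coeff_one]; split_ifs <;> norm_num
  | insert a s ha ih =>
    obtain ⟨p, hp1, hp2, hp3⟩ := ih (fun θ hθ => hR θ (Finset.mem_insert_of_mem hθ))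
    obtain ⟨h0, n, hn, hre⟩ := hR a (Finset.mem_insert_self _ _)
    obtain ⟨q, hq1, hq2, hq3⟩ := pos_poly_one a h0 n hn hre
    refine ⟨q * p, mul_coeff_nonneg q p hq1 hp1, ?_, ?_⟩
    · rw [mul_coeff_zero]; positivity
    · intro θ hθ
      rw [map_mul]
      rcases Finset.mem_insert.mp hθ with h | h
      · rw [h, hq3, zero_mul]
      · rw [hp3 θ h, mul_zero]

lemma pos_poly (β : ℝ) (hβ : 1 < β) (R : Finset ℂ)
    (hR : ∀ θ ∈ R, θ ≠ 0 ∧ ∃ n : ℕ, 1 ≤ n ∧ (θ ^ n).re ≤ 0) (d : ℕ) :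
    ∃ p : ℝ[X], (∀ i, 0 ≤ p.coeff i) ∧ (∀ i < d, 0 < p.coeff i) ∧
      (∀ θ ∈ R, aeval θ p = 0) ∧ p.eval β = 1 := by
  classical
  obtain ⟨p, hp1, hp2, hp3⟩ := pos_poly_finset R hR
  set q : ℝ[X] := ∑ i ∈ Finset.range (d + 1), X ^ i with hq
  have hqc : ∀ i, q.coeff i = if i < d + 1 then 1 else 0 := by
    intro i
    rw [hq, finsetSum_coeff]
    simp only [coeff_X_pow]
    rw [Finset.sum_ite_eq]
    simp
  have hqn : ∀ i, 0 ≤ q.coeff i := by
    intro i; rw [hqc]; split_ifs <;> norm_num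
  have h1 := mul_coeff_nonneg p q hp1 hqn
  have h2 : ∀ i < d + 1, 0 < (p * q).coeff i := by
    intro i hi
    rw [coeff_mul]
    apply Finset.sum_pos'
    · intro x _; exact mul_nonneg (hp1 _) (hqn _)
    · refine ⟨(0, i), by simp, ?_⟩
      rw [hqc, if_pos hi]; simpa using hp2
  have h3 : 0 < (p * q).eval β := by
    rw [eval_eq_sum_range]
    apply Finset.sum_pos'
    · intro i _
      exact mul_nonneg (h1 i) (by positivity)
    · refine ⟨0, by simp, ?_⟩
      have := h2 0 (by omega)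
      simpa using this
  refine ⟨C ((p * q).eval β)⁻¹ * (p * q), ?_, ?_, ?_, ?_⟩
  · intro i
    rw [coeff_C_mul]
    exact mul_nonneg (inv_nonneg.mpr h3.le) (h1 i)
  · intro i hi
    rw [coeff_C_mul]
    exact mul_pos (inv_pos.mpr h3) (h2 i (by omega))
  · intro θ hθ
    rw [map_mul, map_mul, hp3 θ hθ]; simp
  · rw [eval_mul, eval_C, inv_mul_cancel₀ h3.ne']


/-! ### Large elements with bounded conjugates -/

lemma main_large (β : ℝ) (hβ : 1 < β) (P : ℤ[X]) (hP : P.Monic) (R : Finset ℂ)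
    (hRβ : (β : ℂ) ∉ R) (hcard : P.natDegree = R.card + 1)
    (hPβ : aeval β P = 0) (hPR : ∀ θ ∈ R, aeval θ P = 0)
    (hR : ∀ θ ∈ R, θ ≠ 0 ∧ ∃ n : ℕ, 1 ≤ n ∧ (θ ^ n).re ≤ 0)
    (hR1 : ∀ θ ∈ R, ‖θ‖ < 1) (D : ℝ) (hD : 0 ≤ D) :
    ∃ X0 : ℝ, 1 ≤ X0 ∧ ∃ m : ℕ, ∀ q : ℤ[X], X0 ≤ aeval β q → aeval β q ≤ β * X0 →
      (∀ θ ∈ R, ‖aeval θ q‖ ≤ D) →
      ∃ g : ℤ[X], (∀ i, 0 ≤ g.coeff i ∧ g.coeff i ≤ m) ∧ aeval β g = aeval β q := by
  classical
  obtain ⟨p, hp0, hppos, hpR, hpβ⟩ := pos_poly β hβ R hR P.natDegree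
  obtain ⟨K, hK0, hK⟩ := coeff_bound (insert (β : ℂ) R)
  set N := p.natDegree + 1 with hN
  set S := ∑ j ∈ Finset.range N, β ^ j with hS
  have hS0 : 0 ≤ S := Finset.sum_nonneg (fun _ _ => by positivity)
  set B := D + S with hB
  have hB0 : 0 ≤ B := by positivity
  set Rb := K * B with hRb
  have hRb0 : 0 ≤ Rb := by positivity
  have hd : 0 < P.natDegree := by omega
  obtain ⟨c, hc0, hc⟩ : ∃ c : ℝ, 0 < c ∧ ∀ i < P.natDegree, c ≤ p.coeff i := by
    obtain ⟨i0, hi0, hmin⟩ := Finset.exists_min_image (Finset.range P.natDegree)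
      (fun i => p.coeff i) ⟨0, by simpa using hd⟩
    exact ⟨p.coeff i0, hppos i0 (Finset.mem_range.mp hi0),
      fun i hi => hmin i (Finset.mem_range.mpr hi)⟩
  obtain ⟨M, hM0, hM⟩ : ∃ M : ℝ, 0 ≤ M ∧ ∀ i, p.coeff i ≤ M := by
    refine ⟨∑ i ∈ Finset.range N, p.coeff i, Finset.sum_nonneg (fun _ _ => hp0 _), ?_⟩
    intro i
    by_cases hi : i < N
    · exact Finset.single_le_sum (f := fun i => p.coeff i) (fun _ _ => hp0 _)
        (Finset.mem_range.mpr hi)
    · rw [coeff_eq_zero_of_natDegree_lt (by omega)]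
      exact Finset.sum_nonneg (fun _ _ => hp0 _)
  refine ⟨max 1 ((Rb + 1) / c), le_max_left _ _,
    ⌈M * (β * max 1 ((Rb + 1) / c)) + Rb⌉₊, ?_⟩
  set X0 := max 1 ((Rb + 1) / c) with hX0
  have hX01 : 1 ≤ X0 := le_max_left _ _
  have hX0c : Rb + 1 ≤ c * X0 := by
    have : (Rb + 1) / c ≤ X0 := le_max_right _ _
    rw [div_le_iff₀ hc0] at this
    linarith
  intro q hq1 hq2 hqR
  set x : ℝ := aeval β q with hx
  have hx0 : 0 ≤ x := by linarith
  set f : ℤ[X] := ∑ j ∈ Finset.range N, C ⌊p.coeff j * x⌋ * X ^ j with hf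
  have hfc : ∀ i, f.coeff i = ⌊p.coeff i * x⌋ := by
    intro i
    rw [hf, finsetSum_coeff]
    simp only [coeff_C_mul, coeff_X_pow]
    by_cases hi : i < N
    · rw [Finset.sum_eq_single i]
      · simp
      · intro b _ hb; simp [Ne.symm hb]
      · intro h; exact absurd (Finset.mem_range.mpr hi) h
    · rw [coeff_eq_zero_of_natDegree_lt (n := i) (by omega)]
      rw [Finset.sum_eq_zero]
      · simp
      · intro b hb
        have : i ≠ b := by have := Finset.mem_range.mp hb; omega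
        simp [this]
  have hfβ : aeval β f = ∑ j ∈ Finset.range N, (⌊p.coeff j * x⌋ : ℝ) * β ^ j := by
    rw [hf, map_sum]
    apply Finset.sum_congr rfl
    intro j _
    simp
  have hfθ : ∀ θ : ℂ, aeval θ f = ∑ j ∈ Finset.range N, ((⌊p.coeff j * x⌋ : ℝ) : ℂ) * θ ^ j := by
    intro θ
    rw [hf, map_sum]
    apply Finset.sum_congr rfl
    intro j _
    simp
  have hpβ' : ∑ j ∈ Finset.range N, p.coeff j * β ^ j = 1 := by
    rw [← hpβ, eval_eq_sum_range]
  have hpθ' : ∀ θ ∈ R, ∑ j ∈ Finset.range N, (p.coeff j : ℂ) * θ ^ j = 0 := by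
    intro θ hθ
    rw [← hpR θ hθ, aeval_eq_sum_range]
    apply Finset.sum_congr rfl
    intro j _
    rw [Complex.real_smul]
  set r : ℤ[X] := (q - f) %ₘ P with hr
  have hrβ : aeval β r = x - aeval β f := by
    rw [hr, aeval_modByMonic_eq_self_of_root hPβ, map_sub]
  have hrθ : ∀ θ ∈ R, aeval θ r = aeval θ q - aeval θ f := by
    intro θ hθ
    rw [hr, aeval_modByMonic_eq_self_of_root (hPR θ hθ), map_sub]
  have hrβb : |aeval β r| ≤ B := by
    have e1 : aeval β r = ∑ j ∈ Finset.range N, Int.fract (p.coeff j * x) * β ^ j := by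
      rw [hrβ, hfβ]
      have : x = ∑ j ∈ Finset.range N, (p.coeff j * x) * β ^ j := by
        calc x = (∑ j ∈ Finset.range N, p.coeff j * β ^ j) * x := by rw [hpβ', one_mul]
          _ = _ := by
            rw [Finset.sum_mul]
            apply Finset.sum_congr rfl
            intro j _; ring
      conv_lhs => rw [this]
      rw [← Finset.sum_sub_distrib]
      apply Finset.sum_congr rfl
      intro j _
      rw [← this]
      unfold Int.fract
      ring
    rw [e1, abs_of_nonneg (Finset.sum_nonneg (fun j _ => mul_nonneg (Int.fract_nonneg _)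
      (by positivity)))]
    have : ∑ j ∈ Finset.range N, Int.fract (p.coeff j * x) * β ^ j ≤ S := by
      rw [hS]
      apply Finset.sum_le_sum
      intro j _
      have h1 := (Int.fract_lt_one (p.coeff j * x)).le
      have h2 : 0 ≤ β ^ j := by positivity
      nlinarith
    linarith
  have hrθb : ∀ θ ∈ R, ‖aeval θ r‖ ≤ B := by
    intro θ hθ
    have e1 : aeval θ r = aeval θ q +
        ∑ j ∈ Finset.range N, ((Int.fract (p.coeff j * x) : ℝ) : ℂ) * θ ^ j := by
      rw [hrθ θ hθ, hfθ]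
      have h0 := hpθ' θ hθ
      have h1 : ∑ j ∈ Finset.range N, ((p.coeff j * x : ℝ) : ℂ) * θ ^ j = 0 := by
        calc ∑ j ∈ Finset.range N, ((p.coeff j * x : ℝ) : ℂ) * θ ^ j
            = (∑ j ∈ Finset.range N, (p.coeff j : ℂ) * θ ^ j) * (x : ℂ) := by
              rw [Finset.sum_mul]
              apply Finset.sum_congr rfl
              intro j _; push_cast; ring
          _ = 0 := by rw [h0, zero_mul]
      have h2 : ∑ j ∈ Finset.range N, ((Int.fract (p.coeff j * x) : ℝ) : ℂ) * θ ^ j =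
          ∑ j ∈ Finset.range N, ((p.coeff j * x : ℝ) : ℂ) * θ ^ j -
          ∑ j ∈ Finset.range N, ((⌊p.coeff j * x⌋ : ℝ) : ℂ) * θ ^ j := by
        rw [← Finset.sum_sub_distrib]
        apply Finset.sum_congr rfl
        intro j _
        unfold Int.fract
        push_cast; ring
      rw [h2, h1]; ring
    rw [e1]
    refine (norm_add_le _ _).trans ?_
    rw [hB]
    apply add_le_add (hqR θ hθ)
    refine (norm_sum_le _ _).trans ?_
    rw [hS]
    apply Finset.sum_le_sum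
    intro j _
    rw [norm_mul, norm_pow, Complex.norm_real, Real.norm_eq_abs, abs_of_nonneg (Int.fract_nonneg _)]
    have h1 := (Int.fract_lt_one (p.coeff j * x)).le
    have h2 : ‖θ‖ ^ j ≤ 1 := pow_le_one₀ (norm_nonneg _) (hR1 θ hθ).le
    have h3 : 1 ≤ β ^ j := one_le_pow₀ hβ.le
    have h4 : 0 ≤ ‖θ‖ ^ j := by positivity
    have h5 := Int.fract_nonneg (p.coeff j * x)
    calc Int.fract (p.coeff j * x) * ‖θ‖ ^ j ≤ 1 * 1 :=
          mul_le_mul h1 h2 h4 (by norm_num)
      _ ≤ β ^ j := by linarith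
  have hrdeg : r.degree < P.degree := degree_modByMonic_lt _ hP
  have hrc : ∀ i, |(r.coeff i : ℝ)| ≤ Rb := by
    intro i
    have h1 := hK (r.map (Int.castRingHom ℂ)) ?_ B ?_ i
    · rw [coeff_map] at h1
      have : ‖(Int.castRingHom ℂ) (r.coeff i)‖ = |(r.coeff i : ℝ)| := by
        simp
      rwa [this] at h1
    · rw [Finset.card_insert_of_notMem hRβ, ← hcard]
      refine lt_of_le_of_lt degree_map_le ?_
      rwa [degree_eq_natDegree hP.ne_zero] at hrdeg
    · intro θ hθ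
      have e : (r.map (Int.castRingHom ℂ)).eval θ = aeval θ r := by
        rw [aeval_def, eval_map]; rfl
      rw [e]
      rcases Finset.mem_insert.mp hθ with h | h
      · rw [h]
        have : aeval (β : ℂ) r = ((aeval β r : ℝ) : ℂ) := by
          have := aeval_algebraMap_apply ℂ β r
          simpa using this
        rw [this, Complex.norm_real]
        exact hrβb
      · exact hrθb θ h
  refine ⟨f + r, ?_, ?_⟩
  · intro i
    rw [coeff_add, hfc]
    have h1 := abs_le.mp (hrc i)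
    have h2 := Int.sub_one_lt_floor (p.coeff i * x)
    have h3 := Int.floor_le (p.coeff i * x)
    constructor
    · by_cases hi : i < P.natDegree
      · have h4 : c * X0 ≤ p.coeff i * x := by
          apply mul_le_mul (hc i hi) hq1 (by linarith) (hp0 i)
        have h5 : (-1 : ℝ) < ((⌊p.coeff i * x⌋ + r.coeff i : ℤ) : ℝ) := by
          push_cast; linarith [h1.1]
        have h6 : (-1 : ℤ) < ⌊p.coeff i * x⌋ + r.coeff i := by exact_mod_cast h5
        omega
      · have h4 : r.coeff i = 0 := by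
          apply coeff_eq_zero_of_degree_lt
          refine lt_of_lt_of_le hrdeg ?_
          rw [degree_eq_natDegree hP.ne_zero]
          exact_mod_cast Nat.le_of_not_lt hi
        rw [h4, add_zero]
        exact Int.floor_nonneg.mpr (mul_nonneg (hp0 i) hx0)
    · have h4 : ((⌊p.coeff i * x⌋ + r.coeff i : ℤ) : ℝ) ≤ M * (β * X0) + Rb := by
        push_cast
        have : p.coeff i * x ≤ M * (β * X0) := mul_le_mul (hM i) hq2 hx0 hM0
        linarith [h1.2]
      have h5 := h4.trans (Nat.le_ceil _)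
      exact_mod_cast h5
  · rw [map_add, hrβ]; ring

/-! ### Representations -/

/-- technical form of the finite representations -/
def Rep (β : ℝ) (m : ℕ) (x : ℝ) : Prop :=
  ∃ k : ℕ, ∃ a : ℕ → ℕ, (∀ j, a j ≤ m) ∧ x = ∑ j ∈ Finset.range k, (a j : ℝ) / β ^ (j + 1)

lemma Rep.cons {β : ℝ} (hβ : 1 < β) {m : ℕ} {x : ℝ} (h : Rep β m x) (d : ℕ) (hd : d ≤ m) :
    Rep β m ((d + x) / β) := by
  obtain ⟨k, a, ha, hx⟩ := h
  refine ⟨k + 1, fun j => if j = 0 then d else a (j - 1), ?_, ?_⟩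
  · intro j
    simp only
    split_ifs
    · exact hd
    · exact ha _
  · have hβ0 : β ≠ 0 := by positivity
    rw [Finset.sum_range_succ', hx, add_div, Finset.sum_div, add_comm]
    congr 1
    · apply Finset.sum_congr rfl
      intro j _
      simp only [Nat.add_eq_zero_iff, one_ne_zero, and_false, if_false, Nat.add_sub_cancel]
      rw [pow_succ β (j + 1), div_div]
    · simp

lemma Rep.mono {β : ℝ} {m m' : ℕ} {x : ℝ} (h : Rep β m x) (hm : m ≤ m') : Rep β m' x := by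
  obtain ⟨k, a, ha, hx⟩ := h
  exact ⟨k, a, fun j => (ha j).trans hm, hx⟩

lemma rep_of_poly (β : ℝ) (hβ : 1 < β) (g : ℤ[X]) (m : ℕ)
    (hg : ∀ i, 0 ≤ g.coeff i ∧ g.coeff i ≤ m) (n : ℕ) (h : aeval β g < β ^ n) :
    Rep β m (aeval β g / β ^ n) := by
  have hβ0 : 0 < β := by linarith
  have hsum : aeval β g = ∑ i ∈ Finset.range (g.natDegree + 1 + n), (g.coeff i : ℝ) * β ^ i := by
    rw [aeval_eq_sum_range' (n := g.natDegree + 1 + n) (by omega)]
    apply Finset.sum_congr rfl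
    intro i _
    simp
  have hnn : ∀ i, 0 ≤ (g.coeff i : ℝ) * β ^ i := by
    intro i
    have : (0 : ℝ) ≤ g.coeff i := by exact_mod_cast (hg i).1
    positivity
  have hzero : ∀ i, n ≤ i → g.coeff i = 0 := by
    intro i hi
    by_contra hne
    have h1 : (1 : ℝ) ≤ g.coeff i := by
      have := (hg i).1
      exact_mod_cast (by omega : (1 : ℤ) ≤ g.coeff i)
    have hin : i < g.natDegree + 1 + n := by
      have := le_natDegree_of_ne_zero hne
      omega
    have h2 : (g.coeff i : ℝ) * β ^ i ≤ aeval β g := by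
      rw [hsum]
      exact Finset.single_le_sum (f := fun i => (g.coeff i : ℝ) * β ^ i) (fun i _ => hnn i)
        (Finset.mem_range.mpr hin)
    have h3 : β ^ n ≤ β ^ i := pow_le_pow_right₀ hβ.le hi
    have h4 : β ^ i ≤ (g.coeff i : ℝ) * β ^ i := by
      have : 0 < β ^ i := by positivity
      nlinarith
    linarith
  have hsum' : aeval β g = ∑ i ∈ Finset.range n, (g.coeff i : ℝ) * β ^ i := by
    rw [hsum]
    symm
    apply Finset.sum_subset
    · intro i hi
      simp only [Finset.mem_range] at hi ⊢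
      omega
    · intro i _ hi
      simp only [Finset.mem_range, not_lt] at hi
      rw [hzero i hi]; simp
  refine ⟨n, fun j => (g.coeff (n - 1 - j)).toNat, ?_, ?_⟩
  · intro j
    simp only
    have := hg (n - 1 - j)
    omega
  · rw [hsum', ← Finset.sum_range_reflect, Finset.sum_div]
    apply Finset.sum_congr rfl
    intro j hj
    have hj' := Finset.mem_range.mp hj
    have h1 : ((g.coeff (n - 1 - j)).toNat : ℝ) = (g.coeff (n - 1 - j) : ℝ) := by
      have : ((g.coeff (n - 1 - j)).toNat : ℤ) = g.coeff (n - 1 - j) :=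
        Int.toNat_of_nonneg (hg _).1
      exact_mod_cast this
    rw [h1]
    have h2 : β ^ n = β ^ (n - 1 - j) * β ^ (j + 1) := by
      rw [← pow_add]; congr 1; omega
    rw [h2]
    have h3 : β ^ (n - 1 - j) ≠ 0 := by positivity
    have h4 : β ^ (j + 1) ≠ 0 := by positivity
    field_simp

/-- General statement: the base `β > 1` is a root of a monic integer polynomial `P` whose other
complex roots, all simple, lie in the open unit disc and off the nonnegative real axis. -/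
theorem general (β : ℝ) (hβ : 1 < β) (P : ℤ[X]) (hP : P.Monic) (R : Finset ℂ)
    (hRβ : (β : ℂ) ∉ R) (hcard : P.natDegree = R.card + 1)
    (hPβ : aeval β P = 0) (hPR : ∀ θ ∈ R, aeval θ P = 0)
    (hR : ∀ θ ∈ R, ¬ (θ.im = 0 ∧ 0 ≤ θ.re))
    (hR1 : ∀ θ ∈ R, ‖θ‖ < 1) :
    ∃ m : ℕ, ∀ q : ℤ[X], 0 ≤ aeval β q → aeval β q < 1 → Rep β m (aeval β q) := by
  classical
  -- a common bound for the conjugates
  obtain ⟨ρ, hρ0, hρ1, hρ⟩ : ∃ ρ : ℝ, 0 < ρ ∧ ρ < 1 ∧ ∀ θ ∈ R, ‖θ‖ ≤ ρ := by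
    rcases R.eq_empty_or_nonempty with h | h
    · exact ⟨1 / 2, by norm_num, by norm_num, by simp [h]⟩
    · obtain ⟨θ0, hθ0, hmax⟩ := Finset.exists_max_image R (fun θ => ‖θ‖) h
      refine ⟨max (1 / 2) ‖θ0‖, lt_max_of_lt_left (by norm_num), max_lt (by norm_num) (hR1 θ0 hθ0),
        fun θ hθ => (hmax θ hθ).trans (le_max_right _ _)⟩
  have hR' : ∀ θ ∈ R, θ ≠ 0 ∧ ∃ n : ℕ, 1 ≤ n ∧ (θ ^ n).re ≤ 0 := by
    intro θ hθ
    refine ⟨?_, exists_pow_re_nonpos θ (hR θ hθ)⟩
    rintro rfl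
    exact hR 0 hθ (by simp)
  have hρ' : 0 < 1 - ρ := by linarith
  set D0 := β / (1 - ρ) with hD0
  have hD00 : 0 < D0 := by positivity
  obtain ⟨X0, hX0, m', hm'⟩ := main_large β hβ P hP R hRβ hcard hPβ hPR hR' hR1 (D0 + 1)
    (by positivity)
  set m := max m' ⌊β⌋₊ with hm
  refine ⟨m, ?_⟩
  have hβ0 : 0 < β := by linarith
  -- elements with bounded conjugates
  have hsmall : ∀ q : ℤ[X], 0 ≤ aeval β q → aeval β q < 1 → (∀ θ ∈ R, ‖aeval θ q‖ ≤ D0 + 1) →
      Rep β m (aeval β q) := by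
    intro q hq0 hq1 hqR
    rcases hq0.eq_or_lt with hq0 | hq0
    · rw [← hq0]
      exact ⟨0, fun _ => 0, by simp, by simp⟩
    · have hx1 : 1 ≤ X0 / aeval β q := by
        rw [le_div_iff₀ hq0]; linarith
      obtain ⟨n, hn1, hn2⟩ := exists_nat_pow_near hx1 hβ
      rw [le_div_iff₀ hq0] at hn1
      rw [div_lt_iff₀ hq0] at hn2
      have hval : aeval β (X ^ (n + 1) * q) = β ^ (n + 1) * aeval β q := by
        rw [map_mul, map_pow, aeval_X]
      obtain ⟨g, hg, hgβ⟩ := hm' (X ^ (n + 1) * q) (by rw [hval]; exact hn2.le)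
        (by rw [hval, pow_succ]; nlinarith) (by
          intro θ hθ
          rw [map_mul, map_pow, aeval_X, norm_mul, norm_pow]
          have h1 : ‖θ‖ ^ (n + 1) ≤ 1 := pow_le_one₀ (norm_nonneg _) (hR1 θ hθ).le
          have h2 := hqR θ hθ
          have h3 := norm_nonneg (aeval θ q)
          nlinarith)
      rw [hval] at hgβ
      have h1 := rep_of_poly β hβ g m' hg (n + 1) (by
        rw [hgβ]
        have : 0 < β ^ (n + 1) := by positivity
        nlinarith)
      rw [hgβ] at h1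
      have h2 : β ^ (n + 1) * aeval β q / β ^ (n + 1) = aeval β q := by
        field_simp
      rw [h2] at h1
      exact h1.mono (le_max_left _ _)
  -- greedy steps
  have hgreedy : ∀ n : ℕ, ∀ q : ℤ[X], 0 ≤ aeval β q → aeval β q < 1 →
      (∀ θ ∈ R, ‖aeval θ q‖ ≤ D0 + (ρ⁻¹) ^ n) → Rep β m (aeval β q) := by
    intro n
    induction n with
    | zero =>
      intro q h0 h1 h2
      exact hsmall q h0 h1 (by simpa using h2)
    | succ n ih =>
      intro q h0 h1 h2
      set d := ⌊β * aeval β q⌋₊ with hd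
      have hnn : 0 ≤ β * aeval β q := by positivity
      have hd1 : (d : ℝ) ≤ β * aeval β q := Nat.floor_le hnn
      have hd2 : β * aeval β q < d + 1 := Nat.lt_floor_add_one _
      have hdβ : (d : ℝ) ≤ β := by nlinarith
      have hval : aeval β (X * q - C (d : ℤ)) = β * aeval β q - d := by
        simp
      have h3 := ih (X * q - C (d : ℤ)) (by rw [hval]; linarith) (by rw [hval]; linarith) (by
        intro θ hθ
        have e1 : aeval θ (X * q - C (d : ℤ)) = θ * aeval θ q - d := by simp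
        rw [e1]
        refine (norm_sub_le _ _).trans ?_
        rw [norm_mul, Complex.norm_natCast]
        have h4 := hρ θ hθ
        have h5 := h2 θ hθ
        have h6 : ‖θ‖ * ‖aeval θ q‖ ≤ ρ * (D0 + (ρ⁻¹) ^ (n + 1)) :=
          mul_le_mul h4 h5 (norm_nonneg _) hρ0.le
        have h7 : ρ * (ρ⁻¹) ^ (n + 1) = (ρ⁻¹) ^ n := by
          rw [pow_succ]; field_simp
        have h8 : ρ * D0 + β = D0 := by
          rw [hD0]; field_simp; ring
        calc ‖θ‖ * ‖aeval θ q‖ + (d : ℝ) ≤ ρ * (D0 + (ρ⁻¹) ^ (n + 1)) + β := add_le_add h6 hdβ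
          _ = (ρ * D0 + β) + ρ * (ρ⁻¹) ^ (n + 1) := by ring
          _ = D0 + (ρ⁻¹) ^ n := by rw [h7, h8])
      rw [hval] at h3
      have h4 := Rep.cons hβ h3 d ((Nat.le_floor (by
        exact hdβ)).trans (le_max_right _ _))
      have h5 : ((d : ℝ) + (β * aeval β q - d)) / β = aeval β q := by
        field_simp; ring
      rwa [h5] at h4
  intro q h0 h1
  obtain ⟨n, hn⟩ := pow_unbounded_of_one_lt (∑ θ ∈ R, ‖aeval θ q‖)
    (one_lt_inv₀ hρ0 |>.mpr hρ1)
  apply hgreedy n q h0 h1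
  intro θ hθ
  have h2 : ‖aeval θ q‖ ≤ ∑ θ ∈ R, ‖aeval θ q‖ :=
    Finset.single_le_sum (f := fun θ => ‖aeval θ q‖) (fun _ _ => norm_nonneg _) hθ
  linarith


/-! ### Cubic Pisot units -/

lemma Rep.hasFiniteRep {β : ℝ} {m : ℕ} {x : ℝ} (h : Rep β m x) : HasFiniteRep β m x := by
  obtain ⟨k, a, ha, hx⟩ := h
  refine ⟨k, fun j => a (j - 1), fun j _ => ha _, ?_⟩
  rw [hx]
  have : Finset.Icc 1 k = Finset.Ico (0 + 1) (k + 1) := by
    ext j; simp only [Finset.mem_Icc, Finset.mem_Ico]; omega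
  rw [this, ← Finset.sum_Ico_add' (fun j => ((a (j - 1) : ℕ) : ℝ) / β ^ j) 0 k 1,
    Finset.range_eq_Ico]
  apply Finset.sum_congr rfl
  intro j _
  simp

/-- **Main theorem.** For every real cubic Pisot unit `β` with a non-real conjugate there is
`m` such that every element of `ℤ[β] ∩ [0,1)` has a finite `β`-representation over
`{0, …, m}`. -/
theorem result : ∀ β : ℝ, IsCubicPisotUnit β → (∃ z : ℂ, IsConjugate β z ∧ z.im ≠ 0) →
    ∃ m : ℕ, ∀ x : ℝ, x ∈ Algebra.adjoin ℤ {β} → 0 ≤ x → x < 1 → HasFiniteRep β m x := by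
  intro β hβ ⟨z, hz, him⟩
  have hmap : minpoly ℚ β = (minpoly ℤ β).map (algebraMap ℤ ℚ) :=
    minpoly.isIntegrallyClosed_eq_field_fractions' ℚ hβ.integral
  have haeval : ∀ w : ℂ, aeval w (minpoly ℚ β) = aeval w (minpoly ℤ β) := by
    intro w
    rw [hmap, aeval_map_algebraMap]
  have hdeg : (minpoly ℤ β).natDegree = 3 := by
    have h1 := hβ.cubic
    rw [hmap, (minpoly.monic hβ.integral).natDegree_map] at h1
    exact h1
  have hz' : IsConjugate β (starRingEnd ℂ z) := by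
    unfold IsConjugate at hz ⊢
    rw [haeval] at hz ⊢
    have h1 : (minpoly ℤ β).map (algebraMap ℤ ℂ) =
        ((minpoly ℤ β).map (algebraMap ℤ ℝ)).map (algebraMap ℝ ℂ) := by
      rw [Polynomial.map_map]; rfl
    have h2 : aeval (starRingEnd ℂ z) (minpoly ℤ β) =
        (starRingEnd ℂ) (aeval z (minpoly ℤ β)) := by
      have := Polynomial.hom_eval₂ (minpoly ℤ β) (algebraMap ℤ ℂ) (starRingEnd ℂ) z
      rw [aeval_def, aeval_def, this]
      congr 1
      exact RingHom.ext_int _ _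
    rw [h2, hz, map_zero]
  have hne : ∀ w : ℂ, w.im ≠ 0 → w ≠ (β : ℂ) := by
    intro w hw h
    rw [h] at hw
    simp at hw
  have him' : (starRingEnd ℂ z).im ≠ 0 := by simpa using him
  have hzz : z ≠ starRingEnd ℂ z := by
    intro h
    have h1 := congrArg Complex.im h
    rw [Complex.conj_im] at h1
    apply him; linarith
  obtain ⟨m, hm⟩ := general β hβ.one_lt (minpoly ℤ β) (minpoly.monic hβ.integral)
    {z, starRingEnd ℂ z} (by
      rw [Finset.mem_insert, Finset.mem_singleton]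
      rintro (h | h)
      · exact hne z him h.symm
      · exact hne _ him' h.symm)
    (by rw [hdeg, Finset.card_pair hzz])
    (minpoly.aeval ℤ β)
    (by
      intro θ hθ
      rw [← haeval]
      rcases Finset.mem_insert.mp hθ with h | h
      · rw [h]; exact hz
      · rw [Finset.mem_singleton.mp h]; exact hz')
    (by
      intro θ hθ hc
      rcases Finset.mem_insert.mp hθ with h | h
      · rw [h] at hc; exact him hc.1
      · rw [Finset.mem_singleton.mp h] at hc; exact him' hc.1)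
    (by
      intro θ hθ
      rcases Finset.mem_insert.mp hθ with h | h
      · rw [h]; exact hβ.conj_lt_one z hz (hne z him)
      · rw [Finset.mem_singleton.mp h]; exact hβ.conj_lt_one _ hz' (hne _ him'))
  refine ⟨m, ?_⟩
  intro x hx h0 h1
  rw [Algebra.adjoin_singleton_eq_range_aeval] at hx
  obtain ⟨q, rfl⟩ := hx
  exact (hm q h0 h1).hasFiniteRep

end Pool.Agent.Results.MP_f878ff_nt.FiniteRep
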